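import Pool.Agent.H5.HL.Pc
import Pool.Agent.H6.STB.EjA

/-!
# The variation of a polynomial against few digits in a block
-/

set_option autoImplicit false

namespace Pool.HL5

open Finset Real
open Pool.Agent.H49.Ent Pool.Agent.H32.Dense Pool.STK
open Pool.BFL (Pb)
open Pool.STB6 (bxi mem_bxi card_bxi bad_box read_set m1 m1_eval m1_deg)

/-- The cells of the higher digits. -/
noncomputable def hiS (b : ℕ) (x : ℝ) : Finset ℤ :=
  Finset.Icc (⌊x / 2 ^ b⌋ - 4) (⌊x / 2 ^ b⌋ + 4)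

theorem card_hiS (b : ℕ) (x : ℝ) : (hiS b x).card = 9 := by
  unfold hiS
  rw [Int.card_Icc]
  omega

theorem mem_hiS {b : ℕ} {x : ℝ} {ν : ℤ} (h : |(ν : ℝ) - x| ≤ 2 * 2 ^ b) : ν / 2 ^ b ∈ hiS b x := by
  unfold hiS
  have h2 : (0 : ℝ) < 2 ^ b := by positivity
  have h2z : (0 : ℤ) < 2 ^ b := by positivity
  obtain ⟨h3, h4⟩ := abs_le.1 h
  have f1 := Int.floor_le (x / 2 ^ b)
  have f2 := Int.lt_floor_add_one (x / 2 ^ b)
  have e1 : (ν / 2 ^ b) * 2 ^ b ≤ ν := Int.ediv_mul_le ν h2z.ne'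
  have e2 : ν < (ν / 2 ^ b + 1) * 2 ^ b := Int.lt_ediv_add_one_mul_self ν h2z
  have e1' : ((ν / 2 ^ b : ℤ) : ℝ) * 2 ^ b ≤ ν := by exact_mod_cast e1
  have e2' : (ν : ℝ) < (((ν / 2 ^ b : ℤ) : ℝ) + 1) * 2 ^ b := by exact_mod_cast e2
  have g1 : ((ν / 2 ^ b : ℤ) : ℝ) ≤ x / 2 ^ b + 2 := by
    have : ((ν / 2 ^ b : ℤ) : ℝ) * 2 ^ b ≤ (x / 2 ^ b + 2) * 2 ^ b := by
      rw [add_mul, div_mul_cancel₀ _ h2.ne']
      linarith
    exact le_of_mul_le_mul_right this h2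
  have g2 : x / 2 ^ b - 3 < ((ν / 2 ^ b : ℤ) : ℝ) := by
    have : (x / 2 ^ b - 3) * 2 ^ b < ((ν / 2 ^ b : ℤ) : ℝ) * 2 ^ b := by
      rw [sub_mul, div_mul_cancel₀ _ h2.ne']
      rw [add_mul, one_mul] at e2'
      linarith
    exact lt_of_mul_lt_mul_right this h2.le
  rw [Finset.mem_Icc]
  constructor
  · have : ((⌊x / 2 ^ b⌋ - 4 : ℤ) : ℝ) < ((ν / 2 ^ b : ℤ) : ℝ) := by
      push_cast
      linarith
    exact (by exact_mod_cast this : ⌊x / 2 ^ b⌋ - 4 < ν / 2 ^ b).le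
  · have : ((ν / 2 ^ b : ℤ) : ℝ) < ((⌊x / 2 ^ b⌋ + 4 : ℤ) : ℝ) := by
      push_cast
      linarith
    exact (by exact_mod_cast this : ν / 2 ^ b < ⌊x / 2 ^ b⌋ + 4).le

theorem near_cell {a : ℕ} (ν : ℤ) : |((ν / 2 ^ a : ℤ) : ℝ) * 2 ^ a - ν| ≤ 2 ^ a := by
  have h2z : (0 : ℤ) < 2 ^ a := by positivity
  have e1 : (ν / 2 ^ a) * 2 ^ a ≤ ν := Int.ediv_mul_le ν h2z.ne'
  have e2 : ν < (ν / 2 ^ a + 1) * 2 ^ a := Int.lt_ediv_add_one_mul_self ν h2z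
  have e1' : ((ν / 2 ^ a : ℤ) : ℝ) * 2 ^ a ≤ ν := by exact_mod_cast e1
  have e2' : (ν : ℝ) < (((ν / 2 ^ a : ℤ) : ℝ) + 1) * 2 ^ a := by exact_mod_cast e2
  rw [abs_le]
  constructor
  · rw [add_mul, one_mul] at e2'
    linarith
  · have : (0 : ℝ) < 2 ^ a := by positivity
    linarith

open Classical in
/-- **One block.** The integer `ν` is near the value of the polynomial at a full time and its digits in the
block `(a, b]` take few values given `c` and the digits above `b`: the variation of the polynomial is not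
between `V` and `2 ^ b`. -/
theorem blk (d : ℕ) : ∃ C : ℕ, 1 ≤ C ∧ ∀ (Ω τ γ : Type) [Fintype Ω] (q : Ω → ℝ) (W : Ω → τ)
    (t : Ω → ℤ) (P : τ → Polynomial ℝ) (c : τ → γ) (ν : Ω → ℤ) (B : Ω → Prop)
    (S : γ × ℤ → Finset ℤ) (M N a b : ℕ) (K V e ρ : ℝ), IsLaw q → 1 ≤ M → 0 < ρ → ρ ≤ 1 →
    (∀ ω, 0 < q ω → |t ω| ≤ (M : ℤ)) → Real.log (2 * M + 1) - e ≤ CH q t W →
    (∀ w, (P w).natDegree ≤ d) →
    (∀ ω, 0 < q ω → B ω → |(ν ω : ℝ) - (P (W ω)).eval ((t ω : ℝ) / M)| ≤ K) →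
    (∀ ω, 0 < q ω → B ω → ν ω / 2 ^ a ∈ S (c (W ω), ν ω / 2 ^ b)) → (∀ w, (S w).card ≤ N) →
    a ≤ b → K ≤ 2 ^ a → 0 < V → (C : ℝ) ≤ ρ ^ C * (2 * M + 1) →
    (C : ℝ) * N * 2 ^ a ≤ ρ ^ C * V → (C : ℝ) * N ≤ ρ ^ C * M →
    Pb q (fun ω => B ω ∧ (∃ s : ℝ, |s| ≤ 1 ∧ V < |(P (W ω)).eval s - (P (W ω)).eval 0|) ∧
      ∀ s : ℝ, |s| ≤ 1 → |(P (W ω)).eval s - (P (W ω)).eval 0| ≤ 2 ^ b) * Real.log (1 / ρ) ≤
      e + Real.log 2 := by
  obtain ⟨C₀, hC₀, hbox⟩ := bad_box 1 d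
  obtain ⟨C₁, hC₁⟩ : ∃ C₁ : ℕ, C₁ = 9 * (2 * d + 1) * 8 * C₀ * 2 ^ C₀ + 72 * (2 * d + 1) := ⟨_, rfl⟩
  obtain ⟨C, hC⟩ : ∃ C : ℕ, C = C₀ * 2 ^ C₀ + 2 * C₁ + C₀ + 1 := ⟨_, rfl⟩
  refine ⟨C, by omega, ?_⟩
  intro Ω τ γ _ q W t P c ν B S M N a b K V e ρ hq hM hρ hρ1 ht hfull hdeg hν hrow hcard hab hK hV
    hC1 hC2 hC3
  have hM0 : (0 : ℝ) < M := by exact_mod_cast hM
  have hM1 : (1 : ℝ) ≤ M := by exact_mod_cast hM
  have h2a : (0 : ℝ) < 2 ^ a := by positivity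
  have hK0 : ∀ ω, 0 < q ω → B ω → 0 ≤ K := fun ω h1 h2 => (abs_nonneg _).trans (hν ω h1 h2)
  have hC₀R : (1 : ℝ) ≤ C₀ := by exact_mod_cast hC₀
  obtain ⟨κ, hκ⟩ : ∃ κ : ℝ, κ = V / (C₀ * (1 / (ρ / 2)) ^ C₀) := ⟨_, rfl⟩
  have hρ2 : 0 < ρ / 2 := by positivity
  have hA : (0 : ℝ) < C₀ * (1 / (ρ / 2)) ^ C₀ := by positivity
  have hκ0 : 0 < κ := by rw [hκ]; positivity
  have hκV : C₀ * (1 / (ρ / 2)) ^ C₀ * κ = V := by
    rw [hκ, mul_div_cancel₀ _ hA.ne']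
  -- the numbers
  have hCC₀ : C₀ ≤ C := by omega
  have hρC : ρ ^ C ≤ ρ ^ C₀ := pow_le_pow_of_le_one hρ.le hρ1 hCC₀
  have hρC1 : ρ ^ C ≤ ρ ^ (C₀ + 1) := pow_le_pow_of_le_one hρ.le hρ1 (by omega)
  have hρC2 : ρ ^ C ≤ ρ := by
    calc ρ ^ C ≤ ρ ^ 1 := pow_le_pow_of_le_one hρ.le hρ1 (by omega)
      _ = ρ := pow_one ρ
  have hCR : (C : ℝ) = C₀ * 2 ^ C₀ + 2 * C₁ + C₀ + 1 := by
    rw [hC]
    push_cast
    ring
  have hC₁R : (C₁ : ℝ) = 9 * (2 * d + 1) * 8 * C₀ * 2 ^ C₀ + 72 * (2 * d + 1) := by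
    rw [hC₁]
    push_cast
    ring
  have hd0 : (0 : ℝ) ≤ d := Nat.cast_nonneg d
  have hC₁0 : (0 : ℝ) ≤ C₁ := Nat.cast_nonneg _
  have hN0 : (0 : ℝ) ≤ N := Nat.cast_nonneg _
  have n1 : (C₀ : ℝ) ≤ (ρ / 2) ^ C₀ * (2 * M + 1) := by
    have h1 : (C₀ : ℝ) * 2 ^ C₀ ≤ C := by
      rw [hCR]
      linarith
    have h2 : (C₀ : ℝ) * 2 ^ C₀ ≤ ρ ^ C₀ * (2 * M + 1) :=
      h1.trans (hC1.trans (mul_le_mul_of_nonneg_right hρC (by linarith)))
    rw [div_pow, div_mul_eq_mul_div, le_div_iff₀ (by positivity)]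
    exact h2
  have n2 : 9 * N * ((2 * d + 1) * (2 * (2 * 2 ^ a) * M / κ + 1)) ≤ ρ / 2 * (2 * M + 1) := by
    have e1 : (2 : ℝ) * (2 * 2 ^ a) * M / κ = 4 * C₀ * 2 ^ C₀ * (2 ^ a * M) / (ρ ^ C₀ * V) := by
      rw [hκ]
      rw [one_div_div, div_pow]
      field_simp
      ring
    have h3 : (C₁ : ℝ) * N * 2 ^ a ≤ ρ ^ (C₀ + 1) * V / 2 := by
      have h4 : 2 * ((C₁ : ℝ) * N * 2 ^ a) ≤ C * N * 2 ^ a := by
        have : 2 * (C₁ : ℝ) ≤ C := by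
          rw [hCR]
          have : (0 : ℝ) ≤ C₀ * 2 ^ C₀ := by positivity
          linarith
        have h5 := mul_le_mul_of_nonneg_right (mul_le_mul_of_nonneg_right this hN0) h2a.le
        linarith
      have h5 := mul_le_mul_of_nonneg_right hρC1 hV.le
      linarith
    have h4 : (C₁ : ℝ) * N ≤ ρ * M / 2 := by
      have h5 : 2 * ((C₁ : ℝ) * N) ≤ C * N := by
        have : 2 * (C₁ : ℝ) ≤ C := by
          rw [hCR]
          have : (0 : ℝ) ≤ C₀ * 2 ^ C₀ := by positivity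
          linarith
        have h5 := mul_le_mul_of_nonneg_right this hN0
        linarith
      have h6 := mul_le_mul_of_nonneg_right hρC2 hM0.le
      linarith
    rw [e1]
    have hρ0 : 0 < ρ ^ C₀ * V := by positivity
    -- first term
    have t1 : 9 * N * ((2 * d + 1) * (4 * C₀ * 2 ^ C₀ * (2 ^ a * M) / (ρ ^ C₀ * V))) ≤
        ρ / 2 * M := by
      have h7 : 9 * (2 * d + 1) * 8 * C₀ * 2 ^ C₀ ≤ (C₁ : ℝ) := by
        rw [hC₁R]
        have : (0 : ℝ) ≤ 72 * (2 * d + 1) := by positivity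
        linarith
      have h8 : 9 * (2 * d + 1) * 8 * C₀ * 2 ^ C₀ * N * 2 ^ a ≤ ρ ^ (C₀ + 1) * V / 2 :=
        (mul_le_mul_of_nonneg_right (mul_le_mul_of_nonneg_right h7 hN0) h2a.le).trans h3
      have e2 : 9 * N * ((2 * d + 1) * (4 * C₀ * 2 ^ C₀ * (2 ^ a * M) / (ρ ^ C₀ * V))) =
          (9 * (2 * d + 1) * 8 * C₀ * 2 ^ C₀ * N * 2 ^ a) * M / (2 * (ρ ^ C₀ * V)) := by
        field_simp
        ring
      rw [e2, div_le_iff₀ (by positivity)]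
      have h9 := mul_le_mul_of_nonneg_right h8 hM0.le
      have e3 : ρ ^ (C₀ + 1) * V / 2 * M = ρ / 2 * M * (ρ ^ C₀ * V) := by
        rw [pow_succ]
        ring
      rw [e3] at h9
      have h10 : 0 ≤ ρ / 2 * M * (ρ ^ C₀ * V) := by positivity
      linarith
    have t2 : 9 * N * ((2 * (d : ℝ) + 1) * 1) ≤ ρ / 2 * (M + 1) := by
      have h7 : 72 * (2 * (d : ℝ) + 1) ≤ (C₁ : ℝ) := by
        rw [hC₁R]
        have : (0 : ℝ) ≤ 9 * (2 * d + 1) * 8 * C₀ * 2 ^ C₀ := by positivity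
        linarith
      have h8 := (mul_le_mul_of_nonneg_right h7 hN0).trans h4
      have h9 : 0 ≤ N * (2 * (d : ℝ) + 1) := by positivity
      nlinarith
    have e4 : 9 * N * ((2 * (d : ℝ) + 1) * (4 * C₀ * 2 ^ C₀ * (2 ^ a * M) / (ρ ^ C₀ * V) + 1)) =
        9 * N * ((2 * d + 1) * (4 * C₀ * 2 ^ C₀ * (2 ^ a * M) / (ρ ^ C₀ * V))) +
        9 * N * ((2 * (d : ℝ) + 1) * 1) := by ring
    rw [e4]
    linarith
  -- the bad times
  obtain ⟨Ξ, hΞ⟩ : ∃ Ξ : τ → Finset ℤ, Ξ = fun w =>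
    (hiS b ((P w).eval 0)).biUnion fun h => S (c w, h) := ⟨_, rfl⟩
  have hΞc : ∀ w, ((Ξ w).card : ℝ) ≤ 9 * N := by
    intro w
    have h1 : (Ξ w).card ≤ 9 * N := by
      rw [hΞ]
      refine Finset.card_biUnion_le.trans ((Finset.sum_le_sum fun h _ => hcard (c w, h)).trans ?_)
      rw [Finset.sum_const, card_hiS, smul_eq_mul]
    exact_mod_cast h1
  obtain ⟨Bx, hBx⟩ : ∃ Bx : Finset ℤ, Bx = Finset.Icc (-(M : ℤ)) M := ⟨_, rfl⟩
  have hBxc : (Bx.card : ℝ) = 2 * M + 1 := by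
    rw [hBx, Int.card_Icc]
    have : ((M : ℤ) + 1 - -(M : ℤ)).toNat = 2 * M + 1 := by omega
    rw [this]
    push_cast
    ring
  obtain ⟨T, hT⟩ : ∃ T : τ → Finset ℤ, T = fun w => (Bx.filter fun t : ℤ =>
      |(P w).derivative.eval ((t : ℝ) / M)| ≤ κ) ∪ (Ξ w).biUnion fun ξ => Bx.filter fun t : ℤ =>
      κ ≤ |(P w).derivative.eval ((t : ℝ) / M)| ∧
        |(P w).eval ((t : ℝ) / M) - (ξ : ℝ) * 2 ^ a| ≤ 2 * 2 ^ a := ⟨_, rfl⟩
  have key : ∀ w, (∃ s : ℝ, |s| ≤ 1 ∧ V < |(P w).eval s - (P w).eval 0|) →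
      ((T w).card : ℝ) ≤ ρ * Bx.card := by
    rintro w ⟨s, hs, hsV⟩
    -- the derivative is large somewhere
    obtain ⟨z, hz, hzV⟩ : ∃ z : ℝ, |z| ≤ 1 ∧ V < |(P w).derivative.eval z| := by
      have hs0 : s ≠ 0 := by
        rintro rfl
        rw [sub_self, abs_zero] at hsV
        linarith
      obtain ⟨z, hz, hmv⟩ : ∃ z : ℝ, |z| ≤ |s| ∧
          (P w).eval s - (P w).eval 0 = (P w).derivative.eval z * s := by
        rcases lt_or_gt_of_ne hs0 with h | h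
        · obtain ⟨z, hz, hmv⟩ := exists_deriv_eq_slope (fun s => (P w).eval s) h
            (Polynomial.continuous _).continuousOn (Polynomial.differentiable _).differentiableOn
          rw [Polynomial.deriv] at hmv
          refine ⟨z, ?_, ?_⟩
          · rw [abs_of_neg hz.2, abs_of_neg h]
            linarith [hz.1]
          · rw [hmv]
            field_simp
            ring
        · obtain ⟨z, hz, hmv⟩ := exists_deriv_eq_slope (fun s => (P w).eval s) h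
            (Polynomial.continuous _).continuousOn (Polynomial.differentiable _).differentiableOn
          rw [Polynomial.deriv] at hmv
          refine ⟨z, ?_, ?_⟩
          · rw [abs_of_pos hz.1, abs_of_pos h]
            exact hz.2.le
          · rw [hmv]
            field_simp
            ring
      refine ⟨z, hz.trans hs, ?_⟩
      rw [hmv, abs_mul] at hsV
      refine hsV.trans_le ?_
      exact mul_le_of_le_one_right (abs_nonneg _) hs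
    -- the first part
    have p1 : ((Bx.filter fun t : ℤ => |(P w).derivative.eval ((t : ℝ) / M)| ≤ κ).card : ℝ) ≤
        ρ / 2 * (2 * M + 1) := by
      have h1 := hbox (m1 (P w).derivative) M (ρ / 2) 1 κ (fun _ => z)
        (fun i => (m1_deg _ i).trans ((Polynomial.natDegree_derivative_le _).trans
          ((Nat.sub_le _ _).trans (hdeg w)))) hM hρ2 (by linarith) n1 le_rfl hκ0.le (fun _ => hz) (by
          rw [m1_eval, hκV]
          exact hzV)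
      rw [pow_one] at h1
      refine le_trans ?_ h1.le
      have h2 : (Bx.filter fun t : ℤ => |(P w).derivative.eval ((t : ℝ) / M)| ≤ κ).card ≤
          ((bxi 1 M).filter fun y => |MvPolynomial.eval (fun i => ((y i : ℤ) : ℝ) / M)
            (m1 (P w).derivative)| ≤ κ).card := by
        refine Finset.card_le_card_of_injOn (fun t => fun _ => t) ?_ ?_
        · intro t ht
          rw [Finset.mem_coe, Finset.mem_filter, hBx, Finset.mem_Icc] at ht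
          rw [Finset.mem_coe, Finset.mem_filter, mem_bxi]
          refine ⟨fun _ => abs_le.2 ht.1, ?_⟩
          rw [m1_eval]
          exact ht.2
        · intro t _ t' _ h
          exact congrFun h 0
      exact_mod_cast h2
    -- the second part
    have p2 : ((((Ξ w).biUnion fun ξ => Bx.filter fun t : ℤ =>
        κ ≤ |(P w).derivative.eval ((t : ℝ) / M)| ∧
        |(P w).eval ((t : ℝ) / M) - (ξ : ℝ) * 2 ^ a| ≤ 2 * 2 ^ a).card : ℝ)) ≤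
        9 * N * ((2 * d + 1) * (2 * (2 * 2 ^ a) * M / κ + 1)) := by
      have h1 : ((((Ξ w).biUnion fun ξ => Bx.filter fun t : ℤ =>
          κ ≤ |(P w).derivative.eval ((t : ℝ) / M)| ∧
          |(P w).eval ((t : ℝ) / M) - (ξ : ℝ) * 2 ^ a| ≤ 2 * 2 ^ a).card : ℝ)) ≤
          ∑ ξ ∈ Ξ w, (2 * d + 1) * (2 * (2 * 2 ^ a) * M / κ + 1) := by
        have h2 : (((Ξ w).biUnion fun ξ => Bx.filter fun t : ℤ =>
          κ ≤ |(P w).derivative.eval ((t : ℝ) / M)| ∧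
          |(P w).eval ((t : ℝ) / M) - (ξ : ℝ) * 2 ^ a| ≤ 2 * 2 ^ a).card) ≤
          ∑ ξ ∈ Ξ w, (Bx.filter fun t : ℤ => κ ≤ |(P w).derivative.eval ((t : ℝ) / M)| ∧
          |(P w).eval ((t : ℝ) / M) - (ξ : ℝ) * 2 ^ a| ≤ 2 * 2 ^ a).card :=
          Finset.card_biUnion_le
        have h3 : ((((Ξ w).biUnion fun ξ => Bx.filter fun t : ℤ =>
          κ ≤ |(P w).derivative.eval ((t : ℝ) / M)| ∧
          |(P w).eval ((t : ℝ) / M) - (ξ : ℝ) * 2 ^ a| ≤ 2 * 2 ^ a).card : ℝ)) ≤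
          ((∑ ξ ∈ Ξ w, (Bx.filter fun t : ℤ => κ ≤ |(P w).derivative.eval ((t : ℝ) / M)| ∧
          |(P w).eval ((t : ℝ) / M) - (ξ : ℝ) * 2 ^ a| ≤ 2 * 2 ^ a).card : ℕ) : ℝ) := by
          exact_mod_cast h2
        refine h3.trans ?_
        push_cast
        refine Finset.sum_le_sum fun ξ _ => ?_
        have h4 := cnt_near d (P w) (hdeg w) M hM hκ0 (r := 2 * 2 ^ a) (by positivity)
          ((ξ : ℝ) * 2 ^ a)
        rw [hBx]
        exact h4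
      refine h1.trans ?_
      rw [Finset.sum_const, nsmul_eq_mul]
      exact mul_le_mul_of_nonneg_right (hΞc w) (by positivity)
    rw [hT]
    beta_reduce
    have h5 := Finset.card_union_le (Bx.filter fun t : ℤ =>
      |(P w).derivative.eval ((t : ℝ) / M)| ≤ κ) ((Ξ w).biUnion fun ξ => Bx.filter fun t : ℤ =>
      κ ≤ |(P w).derivative.eval ((t : ℝ) / M)| ∧
        |(P w).eval ((t : ℝ) / M) - (ξ : ℝ) * 2 ^ a| ≤ 2 * 2 ^ a)
    have h6 : (((Bx.filter fun t : ℤ =>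
      |(P w).derivative.eval ((t : ℝ) / M)| ≤ κ) ∪ ((Ξ w).biUnion fun ξ => Bx.filter fun t : ℤ =>
      κ ≤ |(P w).derivative.eval ((t : ℝ) / M)| ∧
        |(P w).eval ((t : ℝ) / M) - (ξ : ℝ) * 2 ^ a| ≤ 2 * 2 ^ a)).card : ℝ) ≤ _ :=
      (by exact_mod_cast h5 : _ ≤ ((Bx.filter fun t : ℤ =>
      |(P w).derivative.eval ((t : ℝ) / M)| ≤ κ).card : ℝ) + (((Ξ w).biUnion fun ξ =>
      Bx.filter fun t : ℤ => κ ≤ |(P w).derivative.eval ((t : ℝ) / M)| ∧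
        |(P w).eval ((t : ℝ) / M) - (ξ : ℝ) * 2 ^ a| ≤ 2 * 2 ^ a).card : ℝ))
    rw [hBxc]
    linarith
  refine read_set hq W t Bx T _ hρ (fun ω hω => ?_) (by rw [hBxc]; exact hfull) ?_
  · rw [hBx, Finset.mem_Icc]
    exact abs_le.1 (ht ω hω)
  · rintro ω hω ⟨hB, hV1, hV2⟩
    refine ⟨?_, key _ hV1⟩
    have htB : t ω ∈ Bx := by
      rw [hBx, Finset.mem_Icc]
      exact abs_le.1 (ht ω hω)
    rw [hT]
    beta_reduce
    rw [Finset.mem_union]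
    by_cases h1 : |(P (W ω)).derivative.eval ((t ω : ℝ) / M)| ≤ κ
    · exact Or.inl (Finset.mem_filter.2 ⟨htB, h1⟩)
    · right
      push Not at h1
      have hs1 : |((t ω : ℝ) / M)| ≤ 1 := by
        rw [abs_div, abs_of_pos hM0, div_le_one hM0]
        have := ht ω hω
        exact_mod_cast this
      have hv := hν ω hω hB
      rw [Finset.mem_biUnion]
      refine ⟨ν ω / 2 ^ a, ?_, Finset.mem_filter.2 ⟨htB, h1.le, ?_⟩⟩
      · rw [hΞ]
        beta_reduce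
        rw [Finset.mem_biUnion]
        refine ⟨ν ω / 2 ^ b, mem_hiS ?_, hrow ω hω hB⟩
        have h3 := hV2 _ hs1
        have h4 : (2 : ℝ) ^ a ≤ 2 ^ b := pow_le_pow_right₀ (by norm_num) hab
        have e1 : (ν ω : ℝ) - (P (W ω)).eval 0 = ((ν ω : ℝ) - (P (W ω)).eval ((t ω : ℝ) / M)) +
          ((P (W ω)).eval ((t ω : ℝ) / M) - (P (W ω)).eval 0) := by ring
        rw [e1]
        refine (abs_add_le _ _).trans ?_
        linarith
      · have h3 := near_cell (a := a) (ν ω)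
        have e1 : (P (W ω)).eval ((t ω : ℝ) / M) - ((ν ω / 2 ^ a : ℤ) : ℝ) * 2 ^ a =
          -((ν ω : ℝ) - (P (W ω)).eval ((t ω : ℝ) / M)) -
          (((ν ω / 2 ^ a : ℤ) : ℝ) * 2 ^ a - ν ω) := by ring
        rw [e1]
        refine (abs_sub _ _).trans ?_
        rw [abs_neg]
        linarith

end Pool.HL5
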