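import Pool.Agent.H6.STB.Rd4

/-!
# Few times with values near few numbers

`cnt_near`: a polynomial of degree at most `d` takes, at the points `t / M` with derivative at least `κ`,
values near a given number at few times only. `blk`: the integer `ν` is near the value of a polynomial at
a full time, its digits in a block take few values: the variation of the polynomial is not in the block.
-/

set_option autoImplicit false

namespace Pool.HL5

open Finset Real
open Pool.Agent.H49.Ent Pool.Agent.H32.Dense Pool.STK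
open Pool.BFL (Pb)
open Pool.STB6 (bxi mem_bxi card_bxi bad_box read_set)

/-- A set of integers of small diameter has few elements. -/
theorem card_diam (S : Finset ℤ) {D : ℝ} (hD : 0 ≤ D)
    (h : ∀ t ∈ S, ∀ t' ∈ S, t < t' → ((t' : ℝ) - t) ≤ D) : (S.card : ℝ) ≤ D + 1 := by
  rcases S.eq_empty_or_nonempty with rfl | hne
  · rw [Finset.card_empty]
    push_cast
    linarith
  · obtain ⟨m, hm, hmin⟩ := S.exists_min_image id hne
    have hsub : S ⊆ Finset.Icc m (m + ⌊D⌋) := by
      intro t ht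
      rw [Finset.mem_Icc]
      refine ⟨hmin t ht, ?_⟩
      rcases (hmin t ht).eq_or_lt with h1 | h1
      · simp only [id] at h1
        have : 0 ≤ ⌊D⌋ := Int.floor_nonneg.2 hD
        omega
      · have h2 := h m hm t ht h1
        have h3 : t - m ≤ ⌊D⌋ := Int.le_floor.2 (by push_cast; exact h2)
        omega
    have h1 := Finset.card_le_card hsub
    rw [Int.card_Icc] at h1
    have h2 : (0 : ℤ) ≤ ⌊D⌋ := Int.floor_nonneg.2 hD
    have h3 : ((m + ⌊D⌋ + 1 - m).toNat : ℝ) = ⌊D⌋ + 1 := by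
      have h4 : (((m + ⌊D⌋ + 1 - m).toNat : ℤ)) = m + ⌊D⌋ + 1 - m := Int.toNat_of_nonneg (by omega)
      have h5 : ((((m + ⌊D⌋ + 1 - m).toNat : ℤ)) : ℝ) = ((m + ⌊D⌋ + 1 - m : ℤ) : ℝ) := by rw [h4]
      push_cast at h5 ⊢
      linarith
    have h6 : (S.card : ℝ) ≤ ((m + ⌊D⌋ + 1 - m).toNat : ℝ) := by exact_mod_cast h1
    rw [h3] at h6
    linarith [Int.floor_le D]

open Classical in
/-- **Few times with a large derivative and values near a number.** -/
theorem cnt_near (d : ℕ) (P : Polynomial ℝ) (hP : P.natDegree ≤ d) (M : ℕ) (hM : 1 ≤ M) {κ r : ℝ}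
    (hκ : 0 < κ) (hr : 0 ≤ r) (ξ : ℝ) :
    ((((Finset.Icc (-(M : ℤ)) M).filter fun t : ℤ => κ ≤ |P.derivative.eval ((t : ℝ) / M)| ∧
      |P.eval ((t : ℝ) / M) - ξ| ≤ r).card : ℝ)) ≤ (2 * d + 1) * (2 * r * M / κ + 1) := by
  have hM0 : (0 : ℝ) < M := by exact_mod_cast hM
  obtain ⟨R, hR⟩ : ∃ R : Polynomial ℝ, R = P.derivative ^ 2 - Polynomial.C (κ ^ 2) := ⟨_, rfl⟩
  have hRe : ∀ s, R.eval s = P.derivative.eval s ^ 2 - κ ^ 2 := fun s => by
    rw [hR]
    simp
  have hRd : R.roots.toFinset.card ≤ 2 * d := by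
    refine (Multiset.toFinset_card_le _).trans ((Polynomial.card_roots' R).trans ?_)
    rw [hR]
    refine (Polynomial.natDegree_sub_le _ _).trans (max_le ?_ ?_)
    · refine (Polynomial.natDegree_pow_le).trans ?_
      have h1 := Polynomial.natDegree_derivative_le P
      have h2 : P.derivative.natDegree ≤ d := h1.trans ((Nat.sub_le _ _).trans hP)
      exact Nat.mul_le_mul_left 2 h2
    · rw [Polynomial.natDegree_C]
      exact Nat.zero_le _
  obtain ⟨T, hT⟩ : ∃ T : Finset ℤ, T = (Finset.Icc (-(M : ℤ)) M).filter fun t : ℤ =>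
    κ ≤ |P.derivative.eval ((t : ℝ) / M)| ∧ |P.eval ((t : ℝ) / M) - ξ| ≤ r := ⟨_, rfl⟩
  rw [← hT]
  have hTm : ∀ t ∈ T, κ ≤ |P.derivative.eval ((t : ℝ) / M)| ∧
      |P.eval ((t : ℝ) / M) - ξ| ≤ r := fun t ht => by
    rw [hT, Finset.mem_filter] at ht
    exact ht.2
  obtain ⟨f, hf⟩ : ∃ f : ℤ → ℕ, f = fun t : ℤ =>
    (R.roots.toFinset.filter fun s => s < (t : ℝ) / M).card := ⟨_, rfl⟩
  have hmap : ∀ t ∈ T, f t ∈ Finset.range (2 * d + 1) := fun t _ => by
    rw [hf, Finset.mem_range]
    exact Nat.lt_succ_of_le ((Finset.card_filter_le _ _).trans hRd)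
  have hfib : ∀ n ∈ Finset.range (2 * d + 1),
      (((T.filter fun t => f t = n).card : ℝ)) ≤ 2 * r * M / κ + 1 := by
    intro n _
    refine card_diam _ (by positivity) fun t ht t' ht' hlt => ?_
    rw [Finset.mem_filter] at ht ht'
    have hlt' : (t : ℝ) / M < (t' : ℝ) / M := by
      refine div_lt_div_of_pos_right ?_ hM0
      exact_mod_cast hlt
    -- no root between
    have hno : ∀ s, R ≠ 0 → (t : ℝ) / M ≤ s → s < (t' : ℝ) / M → R.eval s ≠ 0 := by
      intro s h0 h1 h2 h3
      have h4 : s ∈ R.roots.toFinset := by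
        rw [Multiset.mem_toFinset, Polynomial.mem_roots h0]
        exact h3
      have h5 : (R.roots.toFinset.filter fun s => s < (t : ℝ) / M) ⊂
          (R.roots.toFinset.filter fun s => s < (t' : ℝ) / M) := by
        rw [Finset.ssubset_iff_of_subset]
        · refine ⟨s, Finset.mem_filter.2 ⟨h4, h2⟩, fun h6 => ?_⟩
          exact absurd (Finset.mem_filter.1 h6).2 (not_lt.2 h1)
        · intro s' hs'
          rw [Finset.mem_filter] at hs' ⊢
          exact ⟨hs'.1, hs'.2.trans hlt'⟩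
      have h6 := Finset.card_lt_card h5
      have h7 : f t = f t' := ht.2.trans ht'.2.symm
      rw [hf] at h7
      simp only at h7
      omega
    have hge : ∀ s, (t : ℝ) / M < s → s < (t' : ℝ) / M → κ ≤ |P.derivative.eval s| := by
      intro s h1 h2
      by_contra h3
      push Not at h3
      have h4 : R.eval s < 0 := by
        rw [hRe, sub_neg, ← sq_abs]
        exact pow_lt_pow_left₀ h3 (abs_nonneg _) two_ne_zero
      have h5 : 0 ≤ R.eval ((t : ℝ) / M) := by
        rw [hRe, sub_nonneg, ← sq_abs (P.derivative.eval _)]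
        exact pow_le_pow_left₀ hκ.le (hTm t ht.1).1 2
      have h0 : R ≠ 0 := by
        rintro rfl
        rw [Polynomial.eval_zero] at h4
        exact lt_irrefl _ h4
      have h6 : (0 : ℝ) ∈ (fun s => R.eval s) '' Set.Icc ((t : ℝ) / M) s :=
        intermediate_value_Icc' h1.le (Polynomial.continuous R).continuousOn ⟨h4.le, h5⟩
      obtain ⟨s', hs', h7⟩ := h6
      exact hno s' h0 hs'.1 (lt_of_le_of_lt hs'.2 h2) h7
    obtain ⟨s, hs, hmv⟩ := exists_deriv_eq_slope (fun s => P.eval s) hlt'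
      (Polynomial.continuous P).continuousOn (Polynomial.differentiable P).differentiableOn
    rw [Polynomial.deriv] at hmv
    have h1 := hge s hs.1 hs.2
    have h2 : (0 : ℝ) < (t' : ℝ) / M - (t : ℝ) / M := by linarith
    have h3 : P.eval ((t' : ℝ) / M) - P.eval ((t : ℝ) / M) =
        P.derivative.eval s * ((t' : ℝ) / M - (t : ℝ) / M) := by
      rw [hmv, div_mul_cancel₀ _ h2.ne']
    have h4 : |P.eval ((t' : ℝ) / M) - P.eval ((t : ℝ) / M)| ≤ 2 * r := by
      have e1 := (hTm t ht.1).2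
      have e2 := (hTm t' ht'.1).2
      have e3 : P.eval ((t' : ℝ) / M) - P.eval ((t : ℝ) / M) =
        (P.eval ((t' : ℝ) / M) - ξ) - (P.eval ((t : ℝ) / M) - ξ) := by ring
      rw [e3]
      refine (abs_sub _ _).trans ?_
      linarith
    rw [h3, abs_mul, abs_of_pos h2] at h4
    have h5 : κ * ((t' : ℝ) / M - (t : ℝ) / M) ≤ 2 * r :=
      (mul_le_mul_of_nonneg_right h1 h2.le).trans h4
    have h6 : (t' : ℝ) / M - (t : ℝ) / M = ((t' : ℝ) - t) / M := by ring
    rw [h6] at h5
    rw [le_div_iff₀ hκ]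
    have h7 := mul_le_mul_of_nonneg_right h5 hM0.le
    have h8 : κ * (((t' : ℝ) - t) / M) * M = ((t' : ℝ) - t) * κ := by
      field_simp
    rw [h8] at h7
    linarith
  rw [Finset.card_eq_sum_card_fiberwise hmap]
  push_cast
  refine (Finset.sum_le_sum hfib).trans ?_
  rw [Finset.sum_const, Finset.card_range, nsmul_eq_mul]
  push_cast
  exact le_rfl

end Pool.HL5
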