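import Pool.Agent.H5.HL.Blk
import Pool.Agent.H55.GEN.W2
import Pool.Agent.H98.STB.Chn
import Pool.Agent.H46.MIC.Cpn
import Pool.Agent.H83.REC.CNum

/-!
# Two lines with the same near data: the level is a constant of the pair

`two_line`: `L`, `L'` two lines with the same record `z` at the time `t` and the same near data `x`; the
level `ν` of `L'` is near the value at `t` of a polynomial which is a function of `L` and of the near data
`u` of `L'`. If the digits of the level take few values given `(x, u)` in all blocks (rows), `t` is full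
given the line and `u` is free, then the polynomial is constant up to the lowest block.
`row_few`: rows on all large events give few values outside a small event.
-/

set_option autoImplicit false

namespace Pool.HL5

open Finset Real
open Pool.Agent.H49.Ent Pool.Agent.H32.Dense Pool.STK Pool.MIC Pool.K2S
open Pool.BFL (Pb)
open Pool.STB (Pb_mono Pb_or glueLaw')

section

variable {Ω : Type} [Fintype Ω]

theorem Pb_ex {q : Ω → ℝ} (hq : ∀ ω, 0 ≤ q ω) (E : ℕ → Ω → Prop) (n : ℕ) :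
    Pb q (fun ω => ∃ k < n, E k ω) ≤ ∑ k ∈ Finset.range n, Pb q (E k) := by
  induction n with
  | zero =>
    rw [Finset.sum_range_zero]
    refine (Pb_mono hq (B := fun _ => False) fun ω _ h => ?_).trans (le_of_eq ?_)
    · obtain ⟨k, hk, -⟩ := h
      omega
    · unfold Pb
      simp
  | succ n ih =>
    rw [Finset.sum_range_succ]
    refine (Pb_mono hq (B := fun ω => (∃ k < n, E k ω) ∨ E n ω) fun ω _ h => ?_).trans
      ((Pb_or hq _ _).trans (add_le_add ih le_rfl))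
    obtain ⟨k, hk, hE⟩ := h
    rcases Nat.lt_succ_iff_lt_or_eq.1 hk with h1 | h1
    · exact Or.inl ⟨k, h1, hE⟩
    · subst h1
      exact Or.inr hE

/-- **The time is full given the line and the near data of the other line.** -/
theorem full_two {Λ Z X U : Type} {p : Ω → ℝ} (hp : IsLaw p) (L : Ω → Λ) (z : Ω → Z) (t : Ω → ℤ)
    (x : Λ → X) (u : Λ → U) {e₁ : ℝ}
    (hfr : CH p (fun ω => u (L ω)) (fun ω => x (L ω)) ≤
      CH p (fun ω => u (L ω)) (fun ω => (z ω, x (L ω))) + e₁) :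
    CH p t L - e₁ ≤ CH (glue p p (fun ω => (z ω, x (L ω))) (fun ω => (z ω, x (L ω))))
      (fun w => t w.1) (fun w => (L w.1, u (L w.2))) := by
  have p0 := hp.nonneg
  have hr : ∀ v, law p (fun ω => (z ω, x (L ω))) v = law p (fun ω => (z ω, x (L ω))) v :=
    fun _ => rfl
  obtain ⟨q, hq⟩ : ∃ q, q = glue p p (fun ω => (z ω, x (L ω))) (fun ω => (z ω, x (L ω))) :=
    ⟨_, rfl⟩
  have hql : IsLaw q := by rw [hq]; exact glueLaw' hp hp hr
  have q0 := hql.nonneg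
  have m1 : Marg q p (fun w => w.1) := by rw [hq]; exact marg_fst p0 hr
  have m2 : Marg q p (fun w => w.2) := by rw [hq]; exact marg_snd p0 hr
  have hpos : ∀ w, 0 < q w → z w.1 = z w.2 ∧ x (L w.1) = x (L w.2) := fun w hw => by
    rw [hq] at hw
    have := ((glue_pos_iff p0 p0 w).1 hw).2.2
    exact Prod.ext_iff.1 this
  rw [← hq]
  -- the time and the other near data
  have c1 := CH_chain q0 (fun w => t w.1) (fun w => u (L w.2)) (fun w => L w.1)
  have c2 := CH_chain q0 (fun w => u (L w.2)) (fun w => t w.1) (fun w => L w.1)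
  have c3 : CH q (fun w => (t w.1, u (L w.2))) (fun w => L w.1) =
      CH q (fun w => (u (L w.2), t w.1)) (fun w => L w.1) :=
    CH_congr q0 (fun w w' _ _ h => by
      have h' := Prod.ext_iff.1 (Prod.ext_iff.1 h).1
      exact Prod.ext h'.2 h'.1) (fun w w' _ _ h => by
      have h' := Prod.ext_iff.1 (Prod.ext_iff.1 h).1
      exact Prod.ext h'.2 h'.1) (fun _ _ _ _ h => h) (fun _ _ _ _ h => h)
  have c4 : CH q (fun w => t w.1) (fun w => L w.1) = CH p t L := m1.CH t L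
  have c5 : CH p (fun ω => u (L ω)) (fun ω => (z ω, x (L ω))) ≤
      CH q (fun w => u (L w.2)) (fun w => (t w.1, L w.1)) := by
    have a1 := Pool.DY1.CH_glue (Z₁ := fun ω => (z ω, x (L ω))) (Z₂ := fun ω => (z ω, x (L ω)))
      (A := fun w : Ω => w) p0 p0 hr (fun w w' _ _ h => by
        have h' : w = w' := h
        rw [h']) (fun ω => u (L ω))
    rw [← hq] at a1
    rw [← a1]
    refine CH_mono_cond q0 fun w w' _ _ h => ?_
    have h' : w.1 = w'.1 := h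
    rw [h']
  have c6 : CH q (fun w => u (L w.2)) (fun w => L w.1) ≤
      CH p (fun ω => u (L ω)) (fun ω => x (L ω)) := by
    rw [← m2.CH (fun ω => u (L ω)) (fun ω => x (L ω))]
    refine CH_mono_cond q0 fun w w' hw hw' h => ?_
    have h' : L w.1 = L w'.1 := h
    show x (L w.2) = x (L w'.2)
    rw [← (hpos w hw).2, ← (hpos w' hw').2, h']
  have c7 : CH q (fun w => t w.1) (fun w => (u (L w.2), L w.1)) =
      CH q (fun w => t w.1) (fun w => (L w.1, u (L w.2))) :=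
    CH_congr q0 (fun _ _ _ _ h => (Prod.ext_iff.1 h).1) (fun _ _ _ _ h => (Prod.ext_iff.1 h).1)
      (fun w w' _ _ h => by
      have h' := Prod.ext_iff.1 h
      exact Prod.ext h'.2 h'.1) (fun w w' _ _ h => by
      have h' := Prod.ext_iff.1 h
      exact Prod.ext h'.2 h'.1)
  rw [← c7]
  linarith

end

/-- **Two lines with the same near data.** -/
theorem two_line (d : ℕ) : ∃ C : ℕ, 1 ≤ C ∧ ∀ (Ω Λ Z X U : Type) [Fintype Ω] (p : Ω → ℝ)
    (L : Ω → Λ) (z : Ω → Z) (t : Ω → ℤ) (x : Λ → X) (u : Λ → U) (P : Λ → U → Polynomial ℝ)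
    (ν : Λ → ℤ) (B : Ω → Prop) (S : ℕ → (X × U) × ℤ → Finset ℤ) (n M : ℕ) (N a b : ℕ → ℕ)
    (V : ℕ → ℝ) (K e e₁ c₀ c₁ c₂ ρ : ℝ), IsLaw p → 1 ≤ M → 0 < ρ → ρ < 1 →
    (C : ℝ) ≤ ρ ^ C * (2 * M + 1) →
    (∀ ω, 0 < p ω → |t ω| ≤ (M : ℤ)) → Real.log (2 * M + 1) - e ≤ CH p t L →
    CH p (fun ω => u (L ω)) (fun ω => x (L ω)) ≤
      CH p (fun ω => u (L ω)) (fun ω => (z ω, x (L ω))) + e₁ →
    (∀ l v, (P l v).natDegree ≤ d) →
    Pb (glue p p (fun ω => (z ω, x (L ω))) (fun ω => (z ω, x (L ω))))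
      (fun w => ¬ |(ν (L w.2) : ℝ) - (P (L w.1) (u (L w.2))).eval ((t w.1 : ℝ) / M)| ≤ K) ≤ c₁ →
    (∀ k < n, ∀ ω, 0 < p ω → B ω →
      ν (L ω) / 2 ^ a k ∈ S k ((x (L ω), u (L ω)), ν (L ω) / 2 ^ b k)) →
    (∀ k < n, ∀ w, (S k w).card ≤ N k) → Pb p (fun ω => ¬ B ω) ≤ c₀ →
    Pb (glue p p (fun ω => (z ω, x (L ω))) (fun ω => (z ω, x (L ω)))) (fun w =>
      ¬ ∀ s : ℝ, |s| ≤ 1 → |(P (L w.1) (u (L w.2))).eval s - (P (L w.1) (u (L w.2))).eval 0| ≤
        V n) ≤ c₂ →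
    (∀ k < n, a k ≤ b k ∧ K ≤ 2 ^ a k ∧ 0 < V k ∧ V (k + 1) ≤ 2 ^ b k ∧
      (C : ℝ) * N k * 2 ^ a k ≤ ρ ^ C * V k ∧ (C : ℝ) * N k ≤ ρ ^ C * M) →
    Pb (glue p p (fun ω => (z ω, x (L ω))) (fun ω => (z ω, x (L ω)))) (fun w =>
      ¬ ∀ s : ℝ, |s| ≤ 1 → |(P (L w.1) (u (L w.2))).eval s - (P (L w.1) (u (L w.2))).eval 0| ≤
        V 0) ≤ c₀ + c₁ + c₂ + n * ((e + e₁ + Real.log 2) / Real.log (1 / ρ)) := by
  classical
  obtain ⟨C, hC, hb⟩ := blk d
  refine ⟨C, hC, ?_⟩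
  intro Ω Λ Z X U _ p L z t x u P ν B S n M N a b V K e e₁ c₀ c₁ c₂ ρ hp hM hρ hρ1 hCM htM hfull hfr
    hdeg hnear hrow hcard hB htop hnum
  have p0 := hp.nonneg
  have hl : 0 < Real.log (1 / ρ) := Real.log_pos (by rw [lt_div_iff₀ hρ]; linarith)
  have hr : ∀ v, law p (fun ω => (z ω, x (L ω))) v = law p (fun ω => (z ω, x (L ω))) v :=
    fun _ => rfl
  have hft := full_two hp L z t x u hfr
  obtain ⟨q, hq⟩ : ∃ q, q = glue p p (fun ω => (z ω, x (L ω))) (fun ω => (z ω, x (L ω))) :=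
    ⟨_, rfl⟩
  rw [← hq] at hft hnear htop ⊢
  have hql : IsLaw q := by rw [hq]; exact glueLaw' hp hp hr
  have q0 := hql.nonneg
  have m2 : Marg q p (fun w => w.2) := by rw [hq]; exact marg_snd p0 hr
  have hpos : ∀ w, 0 < q w → 0 < p w.1 ∧ 0 < p w.2 ∧ z w.1 = z w.2 ∧ x (L w.1) = x (L w.2) :=
    fun w hw => by
    rw [hq] at hw
    obtain ⟨h1, h2, h3⟩ := (glue_pos_iff p0 p0 w).1 hw
    exact ⟨h1, h2, Prod.ext_iff.1 h3⟩
  obtain ⟨Pw, hPw⟩ : ∃ Pw : Λ × U → Polynomial ℝ, Pw = fun w => P w.1 w.2 := ⟨_, rfl⟩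
  obtain ⟨Gd, hGd⟩ : ∃ Gd : Ω × Ω → Prop, Gd = fun w =>
    |(ν (L w.2) : ℝ) - (P (L w.1) (u (L w.2))).eval ((t w.1 : ℝ) / M)| ≤ K ∧ B w.2 := ⟨_, rfl⟩
  obtain ⟨E, hE⟩ : ∃ E : ℕ → Ω × Ω → Prop, E = fun k w => Gd w ∧
    (∃ s : ℝ, |s| ≤ 1 ∧ V k < |(P (L w.1) (u (L w.2))).eval s -
      (P (L w.1) (u (L w.2))).eval 0|) ∧ ∀ s : ℝ, |s| ≤ 1 →
      |(P (L w.1) (u (L w.2))).eval s - (P (L w.1) (u (L w.2))).eval 0| ≤ 2 ^ b k := ⟨_, rfl⟩
  have hblk : ∀ k < n, Pb q (E k) ≤ (e + e₁ + Real.log 2) / Real.log (1 / ρ) := by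
    intro k hk
    obtain ⟨n1, n2, n3, n4, n5, n6⟩ := hnum k hk
    rw [le_div_iff₀ hl]
    have h1 := hb (Ω × Ω) (Λ × U) (X × U) q (fun w => (L w.1, u (L w.2))) (fun w => t w.1) Pw
      (fun w => (x w.1, w.2)) (fun w => ν (L w.2)) Gd (S k) M (N k) (a k) (b k) K (V k) (e + e₁) ρ
      hql hM hρ hρ1.le (fun w hw => htM _ (hpos w hw).1) (by linarith) (fun w => by
        rw [hPw]
        exact hdeg _ _) (fun w hw hg => by
        rw [hGd] at hg
        rw [hPw]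
        exact hg.1) (fun w hw hg => by
        rw [hGd] at hg
        have h2 := hrow k hk w.2 (hpos w hw).2.1 hg.2
        rw [← (hpos w hw).2.2.2] at h2
        exact h2) (hcard k hk) n1 n2 n3 hCM n5 n6
    rw [hPw] at h1
    rw [hE]
    exact h1
  have hex := Pb_ex q0 E n
  have hsum : ∑ k ∈ Finset.range n, Pb q (E k) ≤
      n * ((e + e₁ + Real.log 2) / Real.log (1 / ρ)) := by
    refine (Finset.sum_le_sum fun k hk => hblk k (Finset.mem_range.1 hk)).trans ?_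
    rw [Finset.sum_const, Finset.card_range, nsmul_eq_mul]
  have hBq : Pb q (fun w => ¬ B w.2) ≤ c₀ := by
    rw [Marg.Pb_eq m2 (fun ω => ¬ B ω)]
    exact hB
  -- the smallest block
  have hcov : ∀ w, 0 < q w → (¬ ∀ s : ℝ, |s| ≤ 1 → |(P (L w.1) (u (L w.2))).eval s -
      (P (L w.1) (u (L w.2))).eval 0| ≤ V 0) →
      (∃ k < n, E k w) ∨ (¬ |(ν (L w.2) : ℝ) - (P (L w.1) (u (L w.2))).eval ((t w.1 : ℝ) / M)| ≤ K ∨
        (¬ B w.2 ∨ ¬ ∀ s : ℝ, |s| ≤ 1 → |(P (L w.1) (u (L w.2))).eval s -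
          (P (L w.1) (u (L w.2))).eval 0| ≤ V n)) := by
    intro w hw h0
    by_contra hcon
    rw [not_or, not_or, not_or, not_not, not_not, not_not] at hcon
    obtain ⟨g1, g2, g3, g4⟩ := hcon
    apply h0
    have hind : ∀ j ≤ n, ∀ s : ℝ, |s| ≤ 1 → |(P (L w.1) (u (L w.2))).eval s -
        (P (L w.1) (u (L w.2))).eval 0| ≤ V (n - j) := by
      intro j
      induction j with
      | zero =>
        intro _
        rw [Nat.sub_zero]
        exact g4
      | succ j ih =>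
        intro hj s hs
        by_contra hlt
        push Not at hlt
        have hk : n - (j + 1) < n := by omega
        have hk1 : n - (j + 1) + 1 = n - j := by omega
        obtain ⟨-, -, -, n4, -, -⟩ := hnum _ hk
        rw [hk1] at n4
        refine g1 ⟨n - (j + 1), hk, ?_⟩
        rw [hE]
        refine ⟨?_, ⟨s, hs, hlt⟩, fun s' hs' => (ih (by omega) s' hs').trans n4⟩
        rw [hGd]
        exact ⟨g2, g3⟩
    have := hind n le_rfl
    rw [Nat.sub_self] at this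
    exact this
  refine (Pb_mono q0 hcov).trans ((Pb_or q0 _ _).trans ?_)
  have h2 := Pb_or q0 (fun w => ¬ |(ν (L w.2) : ℝ) -
    (P (L w.1) (u (L w.2))).eval ((t w.1 : ℝ) / M)| ≤ K) (fun w => ¬ B w.2 ∨ ¬ ∀ s : ℝ, |s| ≤ 1 →
      |(P (L w.1) (u (L w.2))).eval s - (P (L w.1) (u (L w.2))).eval 0| ≤ V n)
  have h3 := Pb_or q0 (fun w => ¬ B w.2) (fun w => ¬ ∀ s : ℝ, |s| ≤ 1 →
      |(P (L w.1) (u (L w.2))).eval s - (P (L w.1) (u (L w.2))).eval 0| ≤ V n)
  linarith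

end Pool.HL5
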